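import Pool.Agent.W425.BF.Stm

set_option autoImplicit false

/-! BF-ALG: coprime factors. -/

namespace Pool.Agent.W356.BF

open Polynomial Finset Pool.Agent.W425.BF

/-- the factor as a polynomial -/
noncomputable def fac {n : ℕ} (p : ℕ) (c : Fin n → ℕ) (N : ℕ) (u : Fin n → ℕ) : ℂ[X][X] :=
  1 - C (C ((p : ℂ)⁻¹ ^ (∑ x, u x)) * X ^ (∑ x, c x * u x)) * X ^ N

theorem ev2_eq (A : ℂ[X][X]) (z t : ℂ) :
    ev2 A z t = eval₂RingHom (evalRingHom z) t A := rfl

theorem ev2_fac {n : ℕ} (p : ℕ) (c : Fin n → ℕ) (N : ℕ) (u : Fin n → ℕ) (z t : ℂ) :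
    ev2 (fac p c N u) z t = 1 - W2 p c N z t u := by
  unfold ev2 fac W2
  simp [eval₂_sub, eval₂_mul, eval₂_pow]

theorem ev2_mul (A B : ℂ[X][X]) (z t : ℂ) : ev2 (A * B) z t = ev2 A z t * ev2 B z t := by
  simp only [ev2_eq, map_mul]

theorem ev2_prod {ι : Type} (s : Finset ι) (f : ι → ℂ[X][X]) (z t : ℂ) :
    ev2 (∏ q ∈ s, f q) z t = ∏ q ∈ s, ev2 (f q) z t := by
  simp only [ev2_eq, map_prod]

theorem disc_infinite : Set.Infinite {z : ℂ | ‖z‖ ≤ 1} := by
  have h := infinite_of_mem_nhds (0 : ℂ) (Metric.closedBall_mem_nhds (0 : ℂ) one_pos)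
  refine h.mono ?_
  intro z hz
  simpa using hz

theorem eq_of_ev2 (P Q : ℂ[X][X]) (h : ∀ z t : ℂ, ‖z‖ ≤ 1 → ‖t‖ ≤ 1 → ev2 P z t = ev2 Q z t) :
    P = Q := by
  rw [← sub_eq_zero]
  set D := P - Q with hD
  have h1 : ∀ z : ℂ, ‖z‖ ≤ 1 → D.map (evalRingHom z) = 0 := by
    intro z hz
    apply Polynomial.eq_zero_of_infinite_isRoot
    refine disc_infinite.mono ?_
    intro t ht
    have h2 := h z t hz ht
    rw [Set.mem_ofPred_eq, IsRoot, ← eval₂_eq_eval_map, hD, eval₂_sub]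
    exact sub_eq_zero.2 h2
  ext1 k
  rw [coeff_zero]
  apply Polynomial.eq_zero_of_infinite_isRoot
  refine disc_infinite.mono ?_
  intro z hz
  have h2 := congrArg (fun r => coeff r k) (h1 z hz)
  simpa [coeff_map] using h2

theorem ident (α β : ℂ[X]) (N M : ℕ) :
    C (β ^ N) * (1 - (C α * X ^ N) ^ M) - C (α ^ M) * (1 - (C β * X ^ M) ^ N) =
      (C (β ^ N - α ^ M) : ℂ[X][X]) := by
  rw [C_sub, C_pow, C_pow, mul_pow, mul_pow, ← pow_mul X N M, ← pow_mul X M N, mul_comm M N]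
  ring

theorem relPrime {n : ℕ} (p : ℕ) (hp : 2 ≤ p) (c : Fin n → ℕ) (N M : ℕ) (u v : Fin n → ℕ)
    (hN : 0 < N)
    (h : ¬ (M * ∑ x, u x = N * ∑ x, v x ∧ M * ∑ x, c x * u x = N * ∑ x, c x * v x)) :
    IsRelPrime (fac p c N u) (fac p c M v) := by
  intro d hd1 hd2
  set α : ℂ[X] := C ((p : ℂ)⁻¹ ^ (∑ x, u x)) * X ^ (∑ x, c x * u x) with hα
  set β : ℂ[X] := C ((p : ℂ)⁻¹ ^ (∑ x, v x)) * X ^ (∑ x, c x * v x) with hβ
  have e1 : fac p c N u = 1 - C α * X ^ N := rfl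
  have e2 : fac p c M v = 1 - C β * X ^ M := rfl
  have d1 : d ∣ 1 - (C α * X ^ N) ^ M := hd1.trans (e1 ▸ one_sub_dvd_one_sub_pow _ _)
  have d2 : d ∣ 1 - (C β * X ^ M) ^ N := hd2.trans (e2 ▸ one_sub_dvd_one_sub_pow _ _)
  have d3 : d ∣ C (β ^ N - α ^ M) := by
    have h3 := dvd_sub (d1.mul_left (C (β ^ N))) (d2.mul_left (C (α ^ M)))
    rwa [ident] at h3
  have hp0 : (p : ℂ) ≠ 0 := by exact_mod_cast (by omega : p ≠ 0)
  have hg : β ^ N - α ^ M ≠ 0 := by
    intro h0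
    apply h
    rw [sub_eq_zero, hα, hβ, mul_pow, mul_pow, ← C_pow, ← C_pow, ← pow_mul, ← pow_mul,
      ← pow_mul, ← pow_mul] at h0
    have c1 : ∀ k : ℕ, ((p : ℂ)⁻¹ ^ k) ≠ 0 := fun k => pow_ne_zero _ (inv_ne_zero hp0)
    have h5 := congrArg natDegree h0
    rw [natDegree_C_mul_X_pow _ _ (c1 _), natDegree_C_mul_X_pow _ _ (c1 _)] at h5
    have h6 := congrArg leadingCoeff h0
    rw [leadingCoeff_C_mul_X_pow, leadingCoeff_C_mul_X_pow, inv_pow, inv_pow, inv_inj] at h6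
    have h7 : (p : ℕ) ^ ((∑ x, v x) * N) = p ^ ((∑ x, u x) * M) := by exact_mod_cast h6
    have h8 := Nat.pow_right_injective hp h7
    refine ⟨?_, ?_⟩
    · rw [mul_comm M, mul_comm N]; exact h8.symm
    · rw [mul_comm M, mul_comm N]; exact h5.symm
  have hdeg : d.natDegree = 0 := by
    have h9 := natDegree_le_of_dvd d3 (C_ne_zero.2 hg)
    rw [natDegree_C] at h9
    omega
  rw [natDegree_eq_zero] at hdeg
  obtain ⟨δ, rfl⟩ := hdeg
  rw [isUnit_C]
  have h10 := (C_dvd_iff_dvd_coeff _ _).1 hd1 0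
  have h11 : (fac p c N u).coeff 0 = 1 := by
    rw [e1, coeff_sub, coeff_one_zero, coeff_C_mul, coeff_X_pow, if_neg (by omega), mul_zero,
      sub_zero]
  rw [h11] at h10
  exact isUnit_of_dvd_one h10

theorem exists_c {n : ℕ} (i : Fin n) {κ : Type} [Fintype κ] (w : κ → Fin n → ℤ) :
    ∃ c : Fin n → ℕ, c i = 0 ∧ ∀ q, w q ≠ 0 → ¬ (∑ x, w q x = 0 ∧ ∑ x, (c x : ℤ) * w q x = 0) := by
  classical
  set P : κ → ℤ[X] := fun q => ∑ x, if x = i then 0 else C (w q x) * X ^ (x : ℕ) with hP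
  set Q : ℤ[X] := ∏ q, if P q = 0 then 1 else P q with hQ
  have hQ0 : Q ≠ 0 := by
    rw [hQ, Finset.prod_ne_zero_iff]
    intro q _
    by_cases h : P q = 0
    · rw [if_pos h]; exact one_ne_zero
    · rw [if_neg h]; exact h
  obtain ⟨M, hM⟩ : ∃ M : ℕ, Q.eval (M : ℤ) ≠ 0 := by
    by_contra hcon
    push Not at hcon
    apply hQ0
    apply Polynomial.eq_zero_of_infinite_isRoot
    refine (Set.infinite_range_of_injective (Nat.cast_injective (R := ℤ))).mono ?_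
    rintro _ ⟨M, rfl⟩
    exact hcon M
  refine ⟨fun x => if x = i then 0 else M ^ (x : ℕ), by simp, ?_⟩
  rintro q hw ⟨h1, h2⟩
  have hPe : (P q).eval (M : ℤ) = 0 := by
    rw [hP]
    simp only [eval_finsetSum]
    rw [← h2]
    apply Finset.sum_congr rfl
    intro x _
    by_cases hx : x = i
    · simp [hx]
    · simp [hx, mul_comm]
  have hP0 : P q ≠ 0 := by
    intro h0
    have h3 : ∀ x, x ≠ i → w q x = 0 := by
      intro x hx
      have h4 := congrArg (fun r => coeff r (x : ℕ)) h0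
      simp only [hP, finsetSum_coeff, coeff_zero] at h4
      rw [Finset.sum_eq_single x] at h4
      · rw [if_neg hx] at h4
        simpa using h4
      · intro y _ hy
        by_cases hyi : y = i
        · rw [if_pos hyi, coeff_zero]
        · rw [if_neg hyi, coeff_C_mul, coeff_X_pow, if_neg, mul_zero]
          intro h5
          exact hy (Fin.ext h5.symm)
      · intro h5
        exact absurd (Finset.mem_univ x) h5
    apply hw
    ext x
    by_cases hx : x = i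
    · rw [hx]
      rw [Finset.sum_eq_single i (fun y _ hy => h3 y hy)
        (fun h5 => absurd (Finset.mem_univ i) h5)] at h1
      exact h1
    · exact h3 x hx
  apply hM
  rw [hQ, eval_prod]
  apply Finset.prod_eq_zero (Finset.mem_univ q)
  rw [if_neg hP0]
  exact hPe

theorem main : TaskALG := by
  intro n i T₁ T₂ ray₁ N₁ ray₂ N₂ R hN hr hpar
  obtain ⟨c, hci, hc⟩ := exists_c i (κ := Fin T₁ × Fin T₂)
    (fun q x => (N₂ q.2 : ℤ) * ray₁ q.1 x - N₁ q.1 * ray₂ q.2 x)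
  refine ⟨c, hci, ?_⟩
  intro p hp A B hAB
  have key : ∀ q ∈ R, ∀ q', IsRelPrime (fac p c (N₁ q) (ray₁ q)) (fac p c (N₂ q') (ray₂ q')) := by
    intro q hq q'
    apply relPrime p hp c _ _ _ _ (hN q hq)
    rintro ⟨h1, h2⟩
    have hw : (fun x => (N₂ q' : ℤ) * ray₁ q x - N₁ q * ray₂ q' x) ≠ 0 := by
      intro h0
      have h3 : ∀ x, N₂ q' * ray₁ q x = N₁ q * ray₂ q' x := by
        intro x
        have h4 := congrFun h0 x
        simp only [Pi.zero_apply, sub_eq_zero] at h4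
        exact_mod_cast h4
      rcases Nat.eq_zero_or_pos (N₂ q') with h5 | h5
      · apply hr q'
        ext x
        have h6 := h3 x
        rw [h5, zero_mul] at h6
        have h7 := hN q hq
        rcases Nat.mul_eq_zero.1 h6.symm with h8 | h8
        · omega
        · exact h8
      · exact hpar q hq q' ⟨N₂ q', N₁ q, h5, hN q hq, h3⟩
    apply hc (q, q') hw
    constructor
    · rw [Finset.sum_sub_distrib, ← Finset.mul_sum, ← Finset.mul_sum, sub_eq_zero]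
      exact_mod_cast h1
    · have h9 : ∀ x, (c x : ℤ) * ((N₂ q' : ℤ) * ray₁ q x - N₁ q * ray₂ q' x) =
          (N₂ q' : ℤ) * ((c x : ℤ) * ray₁ q x) - N₁ q * ((c x : ℤ) * ray₂ q' x) := by
        intro x; ring
      simp only [h9]
      rw [Finset.sum_sub_distrib, ← Finset.mul_sum, ← Finset.mul_sum, sub_eq_zero]
      exact_mod_cast h2
  have hrel : IsRelPrime (∏ q ∈ R, fac p c (N₁ q) (ray₁ q)) (∏ q', fac p c (N₂ q') (ray₂ q')) :=
    IsRelPrime.prod_left fun q hq => IsRelPrime.prod_right fun q' _ => key q hq q'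
  have heq : A * ∏ q', fac p c (N₂ q') (ray₂ q') = B * ∏ q, fac p c (N₁ q) (ray₁ q) := by
    apply eq_of_ev2
    intro z t hz ht
    rw [ev2_mul, ev2_mul, ev2_prod, ev2_prod]
    simp only [ev2_fac]
    exact hAB z t hz ht
  have hdvd : (∏ q ∈ R, fac p c (N₁ q) (ray₁ q)) ∣ A := by
    apply hrel.dvd_of_dvd_mul_right
    rw [heq]
    exact (Finset.prod_dvd_prod_of_subset _ _ _ (Finset.subset_univ R)).mul_left _
  obtain ⟨A2, hA2⟩ := hdvd
  refine ⟨A2.map (evalRingHom 1), ?_⟩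
  intro t
  rw [hA2, ev2_mul, ev2_prod, mul_comm]
  simp only [ev2_fac]
  congr 1
  unfold ev2
  rw [eval₂_eq_eval_map]

end Pool.Agent.W356.BF
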